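import Mathlib
import Pool.Agent.Q285.EQ.Burn

/-!
Project NB (helper18), jobs NFR and CNG: finite sets with the same numbers of fixed points of the subgroups which are
not contained in a normal subgroup.
-/

set_option autoImplicit false
set_option linter.unusedSectionVars false

open Classical

noncomputable section

namespace Pool.Agent.Q66.NB

variable {P : Type} [Group P] (N : Subgroup P) [hN : N.Normal]

/-- the points with a stabiliser not contained in `N` -/
def Pt (A : Type) [MulAction P A] : Type := {a : A // ∃ x : P, x ∉ N ∧ x • a = a}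

instance instAct (A : Type) [MulAction P A] : MulAction P (Pt N A) where
  smul y a := ⟨y • a.1, by
    obtain ⟨x, hx, hxa⟩ := a.2
    refine ⟨y * x * y⁻¹, ?_, ?_⟩
    · intro h
      apply hx
      have h2 := hN.conj_mem _ h y⁻¹
      have h3 : y⁻¹ * (y * x * y⁻¹) * y⁻¹⁻¹ = x := by group
      rwa [h3] at h2
    · rw [smul_smul, inv_mul_cancel_right, mul_smul, hxa]⟩
  one_smul a := Subtype.ext (one_smul P a.1)
  mul_smul x y a := Subtype.ext (mul_smul x y a.1)

theorem smul_val (A : Type) [MulAction P A] (y : P) (a : Pt N A) : (y • a).1 = y • a.1 := rfl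

/-- fixed points of colour `c` -/
def fx {A C : Type} [MulAction P A] (f : A → C) (c : C) (H : Subgroup P) : Set A :=
  {a | f a = c ∧ ∀ h ∈ H, h • a = a}

theorem fx_sSup {A C : Type} [MulAction P A] (f : A → C) (c : C) (t : Finset (Subgroup P)) (ht : t.Nonempty) (a : A) :
    (∀ K ∈ t, a ∈ fx f c K) ↔ a ∈ fx f c (sSup (t : Set (Subgroup P))) := by
  constructor
  · intro h
    obtain ⟨K, hK⟩ := ht
    refine ⟨(h K hK).1, ?_⟩
    have h1 : sSup (t : Set (Subgroup P)) ≤ MulAction.stabilizer P a := by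
      apply sSup_le
      intro K' hK' x hx
      exact (h K' hK').2 x hx
    intro x hx
    exact h1 hx
  · intro h K hK
    refine ⟨h.1, fun x hx => h.2 x ?_⟩
    exact (le_sSup (show K ∈ (t : Set (Subgroup P)) from hK)) hx

theorem card_union [Finite P] {A B C : Type} [Finite A] [Finite B] [MulAction P A] [MulAction P B]
    (f : A → C) (g : B → C) (c : C) (s : Finset (Subgroup P)) (hs : ∀ K ∈ s, ¬ K ≤ N)
    (h : ∀ H : Subgroup P, ¬ H ≤ N → Nat.card (fx f c H) = Nat.card (fx g c H)) :
    Nat.card {a : A // ∃ K ∈ s, a ∈ fx f c K} = Nat.card {b : B // ∃ K ∈ s, b ∈ fx g c K} := by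
  have := Fintype.ofFinite A
  have := Fintype.ofFinite B
  have key : ∀ (D : Type) [Fintype D] [MulAction P D] (k : D → C),
      (Nat.card {a : D // ∃ K ∈ s, a ∈ fx k c K} : ℤ) =
      ∑ t : s.powerset.filter (·.Nonempty), (-1) ^ (t.1.card + 1) *
        (Nat.card (fx k c (sSup (t.1 : Set (Subgroup P)))) : ℤ) := by
    intro D _ _ k
    have h1 := Finset.inclusion_exclusion_card_biUnion s (fun K => Finset.univ.filter (fun a : D => a ∈ fx k c K))
    have h2 : Nat.card {a : D // ∃ K ∈ s, a ∈ fx k c K} =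
        (s.biUnion (fun K => Finset.univ.filter (fun a : D => a ∈ fx k c K))).card := by
      rw [Nat.card_eq_fintype_card, Fintype.card_subtype]
      congr 1
      ext a
      simp
    rw [h2, h1]
    refine Finset.sum_congr rfl (fun t _ => ?_)
    congr 2
    have ht : t.1.Nonempty := (Finset.mem_filter.1 t.2).2
    rw [Nat.card_eq_fintype_card, ← Set.toFinset_card]
    congr 1
    ext a
    rw [Finset.mem_inf', Set.mem_toFinset, ← fx_sSup k c t.1 ht a]
    simp
  have e1 := key A f
  have e2 := key B g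
  have e3 : (Nat.card {a : A // ∃ K ∈ s, a ∈ fx f c K} : ℤ) = Nat.card {b : B // ∃ K ∈ s, b ∈ fx g c K} := by
    rw [e1, e2]
    refine Finset.sum_congr rfl (fun t _ => ?_)
    congr 2
    apply h
    obtain ⟨K, hK⟩ := (Finset.mem_filter.1 t.2).2
    have hKs : K ∈ s := Finset.mem_powerset.1 (Finset.mem_filter.1 t.2).1 hK
    intro hle
    exact hs K hKs ((le_sSup (show K ∈ (t.1 : Set (Subgroup P)) from hK)).trans hle)
  exact_mod_cast e3

theorem nfr_core [Finite P] (A B C : Type) [Finite A] [Finite B] [MulAction P A] [MulAction P B] [MulAction P C]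
    (f : A → C) (g : B → C)
    (hf : ∀ (x : P) (a : A), f (x • a) = x • f a) (hg : ∀ (x : P) (b : B), g (x • b) = x • g b)
    (h : ∀ (H : Subgroup P), ¬ H ≤ N → ∀ c : C, Nat.card {a : A // f a = c ∧ ∀ h ∈ H, h • a = a} =
      Nat.card {b : B // g b = c ∧ ∀ h ∈ H, h • b = b}) :
    ∃ e : {a : A // ∃ x : P, x ∉ N ∧ x • a = a} ≃ {b : B // ∃ x : P, x ∉ N ∧ x • b = b},
      (∀ (x : P) (a a' : {a : A // ∃ x : P, x ∉ N ∧ x • a = a}), a'.1 = x • a.1 →
        (e a').1 = x • (e a).1) ∧ ∀ a, g (e a).1 = f a.1 := by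
  have : Finite (Pt N A) := Subtype.finite
  have : Finite (Pt N B) := Subtype.finite
  have h' : ∀ c : C, ∀ H : Subgroup P, ¬ H ≤ N → Nat.card (fx f c H) = Nat.card (fx g c H) :=
    fun c H hH => h H hH c
  -- numbers of fixed points
  have hfix : ∀ (H : Subgroup P) (c : C), ∀ (D : Type) [MulAction P D] (k : D → C),
      Nat.card {a : Pt N D // k a.1 = c ∧ ∀ h ∈ H, h • a = a} =
      Nat.card {a : D // ∃ K ∈ (Set.toFinite {K : Subgroup P | H ≤ K ∧ ¬ K ≤ N}).toFinset, a ∈ fx k c K} := by
    intro H c D _ k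
    apply Nat.card_congr
    refine
      { toFun := fun a => ⟨a.1.1, MulAction.stabilizer P a.1.1, ?_, ?_⟩
        invFun := fun a => ⟨⟨a.1, ?_⟩, ?_, ?_⟩
        left_inv := fun a => ?_
        right_inv := fun a => ?_ }
    · rw [Set.Finite.mem_toFinset]
      constructor
      · intro x hx
        have := a.2.2 x hx
        exact congrArg Subtype.val this
      · intro hle
        obtain ⟨x, hx, hxa⟩ := a.1.2
        exact hx (hle hxa)
    · exact ⟨a.2.1, fun x hx => hx⟩
    · obtain ⟨K, hK, hK2⟩ := a.2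
      rw [Set.Finite.mem_toFinset] at hK
      obtain ⟨x, hx, hxN⟩ := SetLike.not_le_iff_exists.1 hK.2
      exact ⟨x, hxN, hK2.2 x hx⟩
    · obtain ⟨K, hK, hK2⟩ := a.2
      exact hK2.1
    · obtain ⟨K, hK, hK2⟩ := a.2
      rw [Set.Finite.mem_toFinset] at hK
      intro x hx
      exact Subtype.ext (hK2.2 x (hK.1 hx))
    · rfl
    · rfl
  obtain ⟨e, he1, he2⟩ := Pool.Agent.Q285.EQ.burn P (Pt N A) (Pt N B) C (fun a => f a.1) (fun b => g b.1)
    (fun x a => hf x a.1) (fun x b => hg x b.1) (fun H c => by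
      rw [hfix H c A f, hfix H c B g]
      apply card_union N f g c _ _ (h' c)
      intro K hK
      rw [Set.Finite.mem_toFinset] at hK
      exact hK.2)
  refine ⟨e, ?_, he2⟩
  intro x a a' haa
  have h1 : a' = (x • (show Pt N A from a) : Pt N A) := Subtype.ext haa
  have h2 := he1 x a
  rw [← h1] at h2
  exact congrArg Subtype.val h2

theorem dvd_free [Finite P] {A C : Type} [Finite A] [MulAction P A] [MulAction P C] (f : A → C)
    (hf : ∀ (x : P) (a : A), f (x • a) = x • f a) (hA : ∀ x ∈ N, ∀ a : A, x • a = a) (c : C) :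
    N.relIndex (MulAction.stabilizer P c) ∣ Nat.card {a : A // f a = c ∧ ¬ ∃ x : P, x ∉ N ∧ x • a = a} := by
  let U := {a : A // f a = c ∧ ¬ ∃ x : P, x ∉ N ∧ x • a = a}
  letI act : MulAction (MulAction.stabilizer P c) U :=
    { smul := fun s a => ⟨s.1 • a.1, by
        refine ⟨?_, ?_⟩
        · rw [hf, a.2.1]
          exact s.2
        · rintro ⟨x, hx, hxa⟩
          apply a.2.2
          refine ⟨s.1⁻¹ * x * s.1, ?_, ?_⟩
          · intro h
            apply hx
            have h2 := hN.conj_mem _ h s.1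
            have h3 : s.1 * (s.1⁻¹ * x * s.1) * s.1⁻¹ = x := by group
            rwa [h3] at h2
          · rw [mul_smul, mul_smul, hxa, inv_smul_smul]⟩
      one_smul := fun a => Subtype.ext (one_smul P a.1)
      mul_smul := fun x y a => Subtype.ext (mul_smul x.1 y.1 a.1) }
  have : Finite U := Subtype.finite
  have hst : ∀ u : U, MulAction.stabilizer (MulAction.stabilizer P c) u = N.subgroupOf (MulAction.stabilizer P c) := by
    intro u
    ext s
    rw [MulAction.mem_stabilizer_iff, Subgroup.mem_subgroupOf]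
    constructor
    · intro h
      have h1 : s.1 • u.1 = u.1 := congrArg Subtype.val h
      by_contra hc
      exact u.2.2 ⟨s.1, hc, h1⟩
    · intro h
      exact Subtype.ext (hA s.1 h u.1)
  show _ ∣ Nat.card U
  rw [Nat.card_congr (MulAction.selfEquivSigmaOrbitsQuotientStabilizer (MulAction.stabilizer P c) U)]
  have : Finite (Quotient (MulAction.orbitRel (MulAction.stabilizer P c) U)) := Quotient.finite _
  have := Fintype.ofFinite (Quotient (MulAction.orbitRel (MulAction.stabilizer P c) U))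
  rw [Nat.card_sigma]
  apply Finset.dvd_sum
  intro ω _
  rw [hst]
  exact dvd_refl _

theorem cng_core [Finite P] (A B C : Type) [Finite A] [Finite B] [MulAction P A] [MulAction P B] [MulAction P C]
    (f : A → C) (g : B → C)
    (hf : ∀ (x : P) (a : A), f (x • a) = x • f a) (hg : ∀ (x : P) (b : B), g (x • b) = x • g b)
    (hA : ∀ x ∈ N, ∀ a : A, x • a = a) (hB : ∀ x ∈ N, ∀ b : B, x • b = b)
    (h : ∃ e : {a : A // ∃ x : P, x ∉ N ∧ x • a = a} ≃ {b : B // ∃ x : P, x ∉ N ∧ x • b = b},
      ∀ a, g (e a).1 = f a.1) (c : C) :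
    (Nat.card {a : A // f a = c} : ℤ) ≡ Nat.card {b : B // g b = c} [ZMOD N.relIndex (MulAction.stabilizer P c)] := by
  obtain ⟨e, he⟩ := h
  have hsplit : ∀ (D : Type) [Finite D] [MulAction P D] (k : D → C),
      Nat.card {a : D // k a = c} = Nat.card {a : {a : D // ∃ x : P, x ∉ N ∧ x • a = a} // k a.1 = c} +
        Nat.card {a : D // k a = c ∧ ¬ ∃ x : P, x ∉ N ∧ x • a = a} := by
    intro D _ _ k
    rw [← Nat.card_sum]
    apply Nat.card_congr
    refine
      { toFun := fun a => if h : ∃ x : P, x ∉ N ∧ x • a.1 = a.1 then Sum.inl ⟨⟨a.1, h⟩, a.2⟩ else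
          Sum.inr ⟨a.1, a.2, h⟩
        invFun := fun a => a.elim (fun a => ⟨a.1.1, a.2⟩) (fun a => ⟨a.1, a.2.1⟩)
        left_inv := fun a => ?_
        right_inv := fun a => ?_ }
    · by_cases h : ∃ x : P, x ∉ N ∧ x • a.1 = a.1
      · simp only [h, dif_pos, Sum.elim_inl]
      · simp only [h, dif_neg, not_false_eq_true, Sum.elim_inr]
    · rcases a with a | a
      · have h : ∃ x : P, x ∉ N ∧ x • a.1.1 = a.1.1 := a.1.2
        simp only [Sum.elim_inl, h, dif_pos]
      · have h : ¬ ∃ x : P, x ∉ N ∧ x • a.1 = a.1 := a.2.2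
        simp only [Sum.elim_inr, h, dif_neg, not_false_eq_true]
  have hmid : Nat.card {a : {a : A // ∃ x : P, x ∉ N ∧ x • a = a} // f a.1 = c} =
      Nat.card {b : {b : B // ∃ x : P, x ∉ N ∧ x • b = b} // g b.1 = c} := by
    apply Nat.card_congr
    refine e.subtypeEquiv (fun a => ?_)
    rw [he a]
  have d1 := dvd_free N f hf hA c
  have d2 := dvd_free N g hg hB c
  rw [hsplit A f, hsplit B g, hmid]
  push_cast
  apply Int.ModEq.add_left
  have e1 : ((Nat.card {a : A // f a = c ∧ ¬ ∃ x : P, x ∉ N ∧ x • a = a} : ℕ) : ℤ) ≡ 0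
      [ZMOD N.relIndex (MulAction.stabilizer P c)] := by
    rw [Int.modEq_zero_iff_dvd]
    exact_mod_cast d1
  have e2 : ((Nat.card {b : B // g b = c ∧ ¬ ∃ x : P, x ∉ N ∧ x • b = b} : ℕ) : ℤ) ≡ 0
      [ZMOD N.relIndex (MulAction.stabilizer P c)] := by
    rw [Int.modEq_zero_iff_dvd]
    exact_mod_cast d2
  exact e1.trans e2.symm

end Pool.Agent.Q66.NB
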