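import Pool.Agent.Q18.LF.Stm2
import Pool.Agent.Q66.NB.Core

/-!
Project NB (helper18), jobs NFR and CNG.
-/

set_option autoImplicit false

open Classical

namespace Pool.Agent.Q66.NB

theorem nfr : Pool.Agent.Q18.LF.S_NFR := by
  intro P _ _ N _ A B C _ _ _ _ _ f g hf hg h
  exact nfr_core N A B C f g hf hg h

theorem cng : Pool.Agent.Q18.LF.S_CNG := by
  intro P _ _ N _ A B C _ _ _ _ _ f g hf hg hA hB h c
  exact cng_core N A B C f g hf hg hA hB h c

end Pool.Agent.Q66.NB
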